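import Pool.Agent.Y516.OJ.Stm

/-!
# Project OJ (helper516), job OJ-ELT: the inequality of one element for independent bits
-/

set_option autoImplicit false

namespace Pool.Agent.Y836.OJ

open Finset Pool.Agent.Y516.OJ

/-- the event that `i` is the only element of `V` which is set in `x` -/
def evs {k : ℕ} (V : Finset (Fin k)) (i : Fin k) : Finset (Fin k → Bool) :=
  univ.filter fun x => x i = true ∧ ∀ i' ∈ V, i' ≠ i → x i' = false

lemma wt_nonneg {k : ℕ} {α : ℝ} (h0 : 0 ≤ α) (h1 : α ≤ 1) (x : Fin k → Bool) : 0 ≤ wt α x := by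
  unfold wt
  apply Finset.prod_nonneg
  intro i _
  split_ifs
  · exact h0
  · linarith

lemma sum_prod_bool {k : ℕ} (g : Fin k → Bool → ℝ) :
    ∑ x : Fin k → Bool, ∏ i, g i (x i) = ∏ i, (g i true + g i false) := by
  have h := Finset.prod_univ_sum (t := fun _ : Fin k => (univ : Finset Bool)) (f := g)
  rw [Fintype.piFinset_univ] at h
  rw [← h]
  apply Finset.prod_congr rfl
  intro i _
  rw [Fintype.sum_bool]

lemma wt_sum {k : ℕ} (α : ℝ) : ∑ x : Fin k → Bool, wt α x = 1 := by
  unfold wt
  rw [sum_prod_bool (fun (_ : Fin k) (b : Bool) => if b = true then α else 1 - α)]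
  simp

lemma wt_evs {k : ℕ} (α : ℝ) (V : Finset (Fin k)) (i : Fin k) :
    ∑ x ∈ evs V i, wt α x = α * (1 - α) ^ (V.erase i).card := by
  classical
  have h1 : ∑ x ∈ evs V i, wt α x = ∑ x : Fin k → Bool, ∏ j,
      ((if x j = true then α else 1 - α) *
        (if j = i then (if x j = true then 1 else 0) else
          (if j ∈ V then (if x j = true then 0 else 1) else 1))) := by
    rw [evs, Finset.sum_filter]
    apply Finset.sum_congr rfl
    intro x _
    rw [Finset.prod_mul_distrib]
    split_ifs with hx
    · have : ∏ j, (if j = i then (if x j = true then (1 : ℝ) else 0) else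
          (if j ∈ V then (if x j = true then 0 else 1) else 1)) = 1 := by
        apply Finset.prod_eq_one
        intro j _
        by_cases hj : j = i
        · rw [if_pos hj, hj, if_pos hx.1]
        · rw [if_neg hj]
          by_cases hV : j ∈ V
          · rw [if_pos hV, hx.2 j hV hj]
            simp
          · rw [if_neg hV]
      rw [this, mul_one, wt]
    · symm
      apply mul_eq_zero_of_right
      have hx' : x i = true → ∃ i' ∈ V, i' ≠ i ∧ x i' ≠ false := by
        intro hi
        by_contra hcon
        push Not at hcon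
        exact hx ⟨hi, hcon⟩
      by_cases hi : x i = true
      · obtain ⟨j, hjV, hji, hjx⟩ := hx' hi
        apply Finset.prod_eq_zero (Finset.mem_univ j)
        rw [if_neg hji, if_pos hjV]
        simp only [ne_eq, Bool.not_eq_false] at hjx
        rw [if_pos hjx]
      · apply Finset.prod_eq_zero (Finset.mem_univ i)
        rw [if_pos rfl, if_neg hi]
  rw [h1, sum_prod_bool (fun (j : Fin k) (b : Bool) => ((if b = true then α else 1 - α) *
        (if j = i then (if b = true then 1 else 0) else
          (if j ∈ V then (if b = true then 0 else 1) else 1))))]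
  have h2 : ∀ j : Fin k, ((if true = true then α else 1 - α) *
        (if j = i then (if true = true then (1 : ℝ) else 0) else
          (if j ∈ V then (if true = true then 0 else 1) else 1)) +
        (if false = true then α else 1 - α) *
        (if j = i then (if false = true then (1 : ℝ) else 0) else
          (if j ∈ V then (if false = true then 0 else 1) else 1))) =
      if j = i then α else if j ∈ V then 1 - α else 1 := by
    intro j
    by_cases hj : j = i
    · simp [hj]
    · by_cases hV : j ∈ V
      · simp [hj, hV]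
      · simp [hj, hV]
  rw [Finset.prod_congr rfl fun j _ => h2 j]
  rw [← Finset.mul_prod_erase univ _ (Finset.mem_univ i), if_pos rfl]
  congr 1
  have h3 : ∏ j ∈ univ.erase i, (if j = i then α else if j ∈ V then 1 - α else 1) =
      ∏ j ∈ univ.erase i, (if j ∈ V then 1 - α else 1) := by
    apply Finset.prod_congr rfl
    intro j hj
    rw [if_neg (Finset.ne_of_mem_erase hj)]
  rw [h3, ← Finset.prod_filter, Finset.prod_const]
  congr 2
  ext j
  simp only [Finset.mem_filter, Finset.mem_erase, Finset.mem_univ, and_true]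

lemma evs_lower {k m : ℕ} {α : ℝ} (h0 : 0 < α) (hα : 10 * m * α ≤ 1) (h1 : α ≤ 1)
    (V : Finset (Fin k)) (hV : V.card ≤ m) (i : Fin k) :
    9 / 10 * α ≤ ∑ x ∈ evs V i, wt α x := by
  rw [wt_evs]
  have hc : ((V.erase i).card : ℝ) ≤ m := by
    exact_mod_cast (Finset.card_le_card (Finset.erase_subset _ _)).trans hV
  have h2 : 1 + ((V.erase i).card : ℝ) * (-α) ≤ (1 + (-α)) ^ (V.erase i).card :=
    one_add_mul_le_pow (by linarith) _
  have h3 : (1 + (-α)) = 1 - α := by ring
  rw [h3] at h2
  have h4 : 9 / 10 ≤ (1 - α) ^ (V.erase i).card := by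
    have : ((V.erase i).card : ℝ) * α ≤ m * α := mul_le_mul_of_nonneg_right hc h0.le
    linarith
  calc 9 / 10 * α = α * (9 / 10) := by ring
    _ ≤ α * (1 - α) ^ (V.erase i).card := mul_le_mul_of_nonneg_left h4 h0.le

lemma evs_disjoint {k : ℕ} (V : Finset (Fin k)) (i i' : Fin k) (hi : i ∈ V)
    (hne : i ≠ i') : Disjoint (evs V i) (evs V i') := by
  rw [Finset.disjoint_left]
  intro x hx hx'
  have h1 := (Finset.mem_filter.mp hx).2.1
  have h2 := (Finset.mem_filter.mp hx').2.2 i hi hne
  rw [h1] at h2
  exact absurd h2 (by decide)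

lemma ind_nonneg (P : Prop) : 0 ≤ ind P := by
  unfold ind
  split_ifs <;> norm_num

lemma ind_le_one (P : Prop) : ind P ≤ 1 := by
  unfold ind
  split_ifs <;> norm_num

theorem elt : OneStm → EltStm := by
  intro hone k m α S f g hα0 hα hm hS hf hg
  have hm' : (1 : ℝ) ≤ m := by exact_mod_cast hm
  have hα1 : α ≤ 1 / 10 := by nlinarith
  have hS' : (S.card : ℝ) ≤ m := by exact_mod_cast hS
  have hmα : m * α ≤ 1 / 10 := by linarith
  have key := hone (Fin k → Bool) (Fin k → Bool) (Fin k) (Fin k) (wt α) f (wt α) g
    (fun x y => ind (∀ d ∈ S, ¬ (x d.1 = true ∧ y d.2 = true))) (2 * m * α) (9 / 10 * α) m S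
    (evs (S.image Prod.fst)) (evs (S.image Prod.snd))
    (wt_nonneg hα0.le (by linarith)) (wt_sum α) (wt_nonneg hα0.le (by linarith)) (wt_sum α)
    hf hg (fun _ _ => ind_nonneg _) (fun _ _ => ind_le_one _)
    (by positivity) (by linarith) (by positivity)
    (by nlinarith) 
    (by
      have h1 : α ^ 2 * S.card ≤ 1 / 100 := by
        calc α ^ 2 * S.card ≤ α ^ 2 * m := mul_le_mul_of_nonneg_left hS' (by positivity)
          _ = α * (m * α) := by ring
          _ ≤ 1 / 10 * (1 / 10) := mul_le_mul hα1 hmα (by positivity) (by norm_num)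
          _ = 1 / 100 := by norm_num
      nlinarith)
    (fun i => (Finset.card_filter_le _ _).trans hS) (fun j => (Finset.card_filter_le _ _).trans hS)
    (fun i hi i' _ hne => evs_disjoint _ i i' hi hne)
    (fun j hj j' _ hne => evs_disjoint _ j j' hj hne)
    (fun i _ => evs_lower hα0 hα (by linarith) _ (Finset.card_image_le.trans hS) i)
    (fun j _ => evs_lower hα0 hα (by linarith) _ (Finset.card_image_le.trans hS) j)
    (by
      intro d hd a ha b hb
      have h1 := (Finset.mem_filter.mp ha).2.1
      have h2 := (Finset.mem_filter.mp hb).2.1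
      have : ¬ (∀ d ∈ S, ¬ (a d.1 = true ∧ b d.2 = true)) := fun h => h d hd ⟨h1, h2⟩
      simp only [ind, if_neg this])
  refine key.trans ?_
  apply mul_le_mul_of_nonneg_right
  · have : 0 ≤ α ^ 2 * S.card := by positivity
    nlinarith
  · apply mul_nonneg
    · apply Real.rpow_nonneg
      apply Finset.sum_nonneg
      intro x _
      exact mul_nonneg (wt_nonneg hα0.le (by linarith) x) (Real.rpow_nonneg (hf x) _)
    · apply Real.rpow_nonneg
      apply Finset.sum_nonneg
      intro x _
      exact mul_nonneg (wt_nonneg hα0.le (by linarith) x) (Real.rpow_nonneg (hg x) _)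

end Pool.Agent.Y836.OJ
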